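import Pool.Agent.H26.NS2

set_option autoImplicit false

namespace Pool.Agent.Results.MP_a0aa5b_al.CI

open PowerSeries Finset Pool.Agent.H26.NS
open scoped Classical

noncomputable def PS (S : Set ℕ) : ℤ⟦X⟧ := (1 - X) * PowerSeries.mk fun s => if s ∈ S then 1 else 0

def IsExp (S : Set ℕ) (e : ℕ → ℤ) : Prop :=
  ∀ N, ∀ᶠ M in Filter.atTop,
    coeff N ((∏ j ∈ range M, un j ^ e (j + 1) : (ℤ⟦X⟧)ˣ) : ℤ⟦X⟧) = coeff N (PS S)

def Pres {k : ℕ} (n : Fin k → ℕ) (ρ : Finset ((Fin k → ℕ) × (Fin k → ℕ))) : Prop :=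
  ∀ x y, addConGen (fun x y => (x, y) ∈ ρ) x y ↔ ph n x = ph n y

variable {k : ℕ} {n : Fin k → ℕ}

lemma ident (h0 : ∀ i, n i ≠ 0) (hi : Function.Injective n) (e : ℕ → ℤ)
    (he : IsExp (Set.range (ph n)) e) (M : ℕ) (hM : ∀ j, M ≤ j → e (j + 1) = 0) (h1 : 0 < M)
    (h2 : ∀ i, n i ≤ M) :
    ((∏ j ∈ range M, un j ^ (e (j + 1) - (if j = 0 then 1 else 0) +
      if j + 1 ∈ Set.range n then 1 else 0) : (ℤ⟦X⟧)ˣ) : ℤ⟦X⟧) =
      (PowerSeries.mk fun s => if s ∈ Set.range (ph n) then 1 else 0) * ∏ i, (1 - X ^ n i) := by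
  have a1 : ((∏ j ∈ range M, un j ^ e (j + 1) : (ℤ⟦X⟧)ˣ) : ℤ⟦X⟧) = PS (Set.range (ph n)) := by
    ext N
    obtain ⟨L, l1, l2⟩ := ((he N).and (Filter.eventually_ge_atTop M)).exists
    rw [← l1, prod_subset (range_mono l2) fun j _ hj => by
      rw [hM j (by simpa using hj), zpow_zero]]
  have a2 : ∏ j ∈ range M, un j ^ (if j = 0 then 1 else 0 : ℤ) = un 0 := by
    rw [prod_eq_single_of_mem 0 (by simpa using h1) fun j _ hj => by simp [hj]]
    simp
  have a3 : ((∏ j ∈ range M, un j ^ (if j + 1 ∈ Set.range n then 1 else 0 : ℤ) : (ℤ⟦X⟧)ˣ) : ℤ⟦X⟧) =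
      ∏ i, (1 - X ^ n i) := by
    have : (range M).filter (fun j => j + 1 ∈ Set.range n) = univ.image fun i => n i - 1 := by
      ext j
      simp only [mem_filter, mem_range, Set.mem_range, mem_image, mem_univ, true_and]
      constructor
      · rintro ⟨_, i, h⟩; exact ⟨i, by omega⟩
      · rintro ⟨i, h⟩
        have := h0 i
        have := h2 i
        exact ⟨by omega, i, by omega⟩
    simp only [pow_ite, zpow_one, zpow_zero]
    rw [← prod_filter, this, prod_image fun i _ j _ h => hi (by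
      have := h0 i; have := h0 j; omega), Units.coe_prod]
    exact prod_congr rfl fun i _ => by
      simp [un, Nat.sub_add_cancel (Nat.one_le_iff_ne_zero.mpr (h0 i))]
  simp only [zpow_add, zpow_sub, prod_mul_distrib, prod_inv_distrib, a2, Units.val_mul, a1, a3]
  congr 1
  rw [PS, mul_comm (1 - X), mul_assoc, show (1 - X : ℤ⟦X⟧) = un 0 by simp [un], Units.mul_inv,
    mul_one]

lemma analytic (h0 : ∀ i, n i ≠ 0) (hfin : {s | s ∉ Set.range (ph n)}.Finite)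
    {a b α β : ℕ} (ha : a ≠ 0) (hb : b ≠ 0)
    (h : (PowerSeries.mk fun s => if s ∈ Set.range (ph n) then 1 else 0 : ℤ⟦X⟧) * ∏ i, (1 - X ^ n i) =
      (1 - X ^ a) ^ α * (1 - X ^ b) ^ β) :
    k = α + β + 1 ∧ ∏ i, n i = a ^ α * b ^ β ∧ ∀ i, n i ∣ a ∨ n i ∣ b := by
  let P : Polynomial ℤ := 1 - (1 - Polynomial.X) * ∑ g ∈ hfin.toFinset, Polynomial.X ^ g
  have hP : (P : ℤ⟦X⟧) = (1 - X) * PowerSeries.mk fun s => if s ∈ Set.range (ph n) then 1 else 0 := by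
    have : (PowerSeries.mk fun s => if s ∈ Set.range (ph n) then 1 else 0 : ℤ⟦X⟧) =
        geo 1 - ((∑ g ∈ hfin.toFinset, Polynomial.X ^ g : Polynomial ℤ) : ℤ⟦X⟧) := by
      ext s
      simp only [geo, coeff_mk, map_sub, Polynomial.coeff_coe, Polynomial.finsetSum_coeff,
        Polynomial.coeff_X_pow, sum_ite_eq, Set.Finite.mem_toFinset, Set.mem_ofPred_eq, one_dvd]
      split_ifs <;> simp
    have g := geo_mul 0
    rw [zero_add, pow_one] at g
    rw [this, mul_sub, g]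
    simp [P]
  have e : P * ∏ i, (1 - Polynomial.X ^ n i) =
      (1 - Polynomial.X) * ((1 - Polynomial.X ^ a) ^ α * (1 - Polynomial.X ^ b) ^ β) := by
    apply Polynomial.coe_injective
    have q : ((∏ i, (1 - Polynomial.X ^ n i) : Polynomial ℤ) : ℤ⟦X⟧) = ∏ i, (1 - X ^ n i) := by
      rw [← Polynomial.coeToPowerSeries.ringHom_apply, map_prod]
      simp
    simp only [Polynomial.coe_mul, hP, q, mul_assoc, h]
    simp
  have gs : ∀ m : ℕ, (1 - Polynomial.X ^ m : Polynomial ℤ) =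
      (1 - Polynomial.X) * ∑ j ∈ range m, Polynomial.X ^ j := fun m => (mul_neg_geom_sum _ _).symm
  have c := cancel_pow k (α + β + 1) (P * ∏ i, ∑ j ∈ range (n i), Polynomial.X ^ j)
    ((∑ j ∈ range a, Polynomial.X ^ j) ^ α * (∑ j ∈ range b, Polynomial.X ^ j) ^ β)
    (by simp [P, Polynomial.eval_prod, Polynomial.eval_finsetSum, prod_eq_zero_iff, h0])
    (by simp [Polynomial.eval_finsetSum, ha, hb]) (by
      simp only [gs (n _), gs a, gs b, prod_mul_distrib, prod_const, card_univ, Fintype.card_fin,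
        mul_pow] at e
      linear_combination e)
  refine ⟨c.1, ?_, fun i => ?_⟩
  · have := c.2
    simp [P, Polynomial.eval_prod, Polynomial.eval_finsetSum] at this
    exact_mod_cast this
  · by_cases h1 : n i = 1
    · exact Or.inl (h1 ▸ one_dvd a)
    have z := Complex.isPrimitiveRoot_exp (n i) (h0 i)
    have := congrArg (Polynomial.aeval (Complex.exp (2 * Real.pi * Complex.I / n i))) e
    simp only [map_mul, map_prod, map_sub, map_pow, map_one, Polynomial.aeval_X] at this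
    rw [prod_eq_zero (mem_univ i) (by rw [z.pow_eq_one, sub_self]), mul_zero] at this
    rcases mul_eq_zero.mp this.symm with q | q
    · exact absurd (sub_eq_zero.mp q).symm (z.ne_one (by have := h0 i; omega))
    · exact (mul_eq_zero.mp q).imp
        (fun q => z.dvd_of_pow_eq_one _ (sub_eq_zero.mp (eq_zero_of_pow_eq_zero q)).symm)
        (fun q => z.dvd_of_pow_eq_one _ (sub_eq_zero.mp (eq_zero_of_pow_eq_zero q)).symm)

lemma facts (h0 : ∀ i, n i ≠ 0) (F : ℤ⟦X⟧) (hF : F =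
    (PowerSeries.mk fun s => if s ∈ Set.range (ph n) then 1 else 0) * ∏ i, (1 - X ^ n i)) :
    (∀ s, coeff s F ≠ 0 → s = 0 ∨ TT n s) ∧ ∀ t, t ≠ 0 → MinT n t → ∃ Z : Finset (Fin k → ℕ),
      (∀ w, w ∈ Z ↔ ph n w = t) ∧ coeff t F = 1 - Z.card := by
  let V : AddSubmonoid ℕ := ⟨⟨Set.range (ph n), by
    rintro _ _ ⟨x, rfl⟩ ⟨y, rfl⟩; exact ⟨x + y, ph_add x y⟩⟩, ⟨0, ph_zero⟩⟩
  have g : ∀ i, un (n i - 1) = (1 - X ^ n i : ℤ⟦X⟧) ∧ (1 - X ^ n i) * geo (n i) = 1 := by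
    intro i
    obtain ⟨m, hm⟩ := Nat.exists_eq_succ_of_ne_zero (h0 i)
    rw [hm]
    exact ⟨rfl, geo_mul m⟩
  have hV : Sp V (∏ i, (1 - X ^ n i)) :=
    prod_induction _ _ (fun _ _ => Sp.mul) (sp_one V) fun i _ => (g i).1 ▸ (un_mem (U := V) (j := n i - 1)
      ⟨Pi.single i 1, by rw [ph_single]; have := h0 i; omega⟩).1
  let G : ℤ⟦X⟧ := ∏ i, geo (n i) - PowerSeries.mk fun s => if s ∈ Set.range (ph n) then 1 else 0
  have e : F = 1 - G * ∏ i, (1 - X ^ n i) := by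
    rw [hF, sub_mul, ← prod_mul_distrib, prod_eq_one (f := fun i => geo (n i) * (1 - X ^ n i))
      fun i _ => by rw [mul_comm, (g i).2]]
    ring
  have hG : ∀ s, coeff s G ≠ 0 → TT n s := by
    intro s hs
    obtain ⟨Z, z1, z2⟩ := exists_Z h0 s
    rw [map_sub, z2, coeff_mk] at hs
    by_contra hT
    have c1 : Z.card ≤ 1 := card_le_one.mpr fun x hx y hy => by
      by_contra hxy
      exact hT ⟨x, y, hxy, (z1 x).mp hx, (z1 y).mp hy⟩
    split_ifs at hs with h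
    · obtain ⟨w, hw⟩ := h
      have := card_pos.mpr ⟨w, (z1 w).mpr hw⟩
      omega
    · rw [eq_empty_of_forall_notMem fun w hw => h ⟨w, (z1 w).mp hw⟩] at hs
      simp at hs
  refine ⟨fun s hs => ?_, fun t ht mt => ?_⟩
  · by_cases z : s = 0
    · exact Or.inl z
    rw [e, map_sub, coeff_one, if_neg z, zero_sub, neg_ne_zero, coeff_mul] at hs
    obtain ⟨p, hp, h⟩ := exists_ne_zero_of_sum_ne_zero hs
    obtain ⟨w, hw⟩ := hV _ (right_ne_zero_of_mul h)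
    rw [← mem_antidiagonal.mp hp, ← hw]
    exact Or.inr ((hG _ (left_ne_zero_of_mul h)).add w)
  · obtain ⟨Z, z1, z2⟩ := exists_Z h0 t
    refine ⟨Z, z1, ?_⟩
    rw [e, map_sub, coeff_one, if_neg ht, coeff_mul, sum_eq_single_of_mem (t, 0) (by simp)]
    · obtain ⟨x, -, -, hx, -⟩ := mt.1
      rw [map_sub, z2, coeff_mk, if_pos ⟨x, hx⟩]
      simp [h0]
    · rintro ⟨p, q⟩ hp h1
      by_contra h
      obtain ⟨w, hw⟩ := hV _ (right_ne_zero_of_mul h)
      have h2 := mem_antidiagonal.mp hp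
      simp only at hw h2
      rw [mt.2 p (hG _ (left_ne_zero_of_mul h)) w (hw ▸ h2), ph_zero] at hw
      exact h1 (by simp [← h2, ← hw])

lemma finish (h0 : ∀ i, n i ≠ 0) (hfin : {s | s ∉ Set.range (ph n)}.Finite) {a b α β : ℕ}
    (hab : a ≠ b) (ma : MinT n a) (mb : MinT n b) {Y Z : Finset (Fin k → ℕ)}
    (hY : ∀ w, w ∈ Y ↔ ph n w = a) (cY : Y.card = α + 1) (hZ : ∀ w, w ∈ Z ↔ ph n w = b)
    (cZ : Z.card = β + 1) (hk : k = α + β + 1) (hp : ∏ i, n i = a ^ α * b ^ β) (k0 : Fin k)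
    (g : Fin k → ℕ) (g1 : ∀ i, g i = a ∨ g i = b) (g2 : ∀ i, n i ∣ g i)
    (g3 : ∏ i ∈ univ.erase k0, g i = a ^ α * b ^ β) (u v : Fin k → ℕ) (hu : ph n u = a)
    (u0 : u k0 ≠ 0) (hv : ph n v = b) (v0 : v k0 ≠ 0) :
    ∃ ρ, Pres n ρ ∧ (∀ σ ⊂ ρ, ¬ Pres n σ) ∧ ρ.card + 1 = k := by
  let ρ := (Y.erase u).image (fun w => (w, u)) ∪ (Z.erase v).image fun w => (w, v)
  have m : ∀ x y, (x, y) ∈ ρ ↔ x ≠ y ∧ ((ph n x = a ∧ y = u) ∨ (ph n x = b ∧ y = v)) := by
    intro x y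
    simp only [ρ, mem_union, mem_image, mem_erase, hY, hZ, Prod.mk.injEq]
    constructor
    · rintro (⟨_, h, rfl, rfl⟩ | ⟨_, h, rfl, rfl⟩)
      exacts [⟨h.1, Or.inl ⟨h.2, rfl⟩⟩, ⟨h.1, Or.inr ⟨h.2, rfl⟩⟩]
    · rintro ⟨h, ⟨h1, rfl⟩ | ⟨h1, rfl⟩⟩
      exacts [Or.inl ⟨x, ⟨h, h1⟩, rfl, rfl⟩, Or.inr ⟨x, ⟨h, h1⟩, rfl, rfl⟩]
  have m2 : ∀ x y, (x, y) ∈ ρ → ph n x = ph n y := by
    intro x y h
    rcases ((m x y).mp h).2 with ⟨h1, rfl⟩ | ⟨h1, rfl⟩
    exacts [h1.trans hu.symm, h1.trans hv.symm]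
  have hc : ∀ x y, addConGen (fun x y => (x, y) ∈ ρ) x y → ph n x = ph n y := by
    let φ : (Fin k → ℕ) →+ ℕ := ⟨⟨ph n, ph_zero⟩, ph_add⟩
    exact fun x y h => (AddCon.addConGen_le (c := AddCon.ker φ)).mpr m2 h
  have r : ∀ x y, ((ph n x = a ∧ y = u) ∨ (ph n x = b ∧ y = v)) →
      addConGen (fun x y => (x, y) ∈ ρ) x y := by
    intro x y h
    by_cases e : x = y
    · exact e ▸ AddCon.refl _ x
    · exact AddConGen.Rel.of _ _ ((m x y).mpr ⟨e, h⟩)
  refine ⟨ρ, fun x y => ⟨hc x y, normal h0 hfin _ hc k0 (fun i => if i = k0 then 1 else g i / n i)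
    (fun i => ?_) ?_ x y⟩, fun σ hσ hs => ?_, ?_⟩
  · by_cases e : i = k0
    · exact ⟨0, by simpa [e] using AddCon.refl _ _⟩
    have q := ph_single (n := n) i (g i / n i)
    rw [Nat.div_mul_cancel (g2 i)] at q
    simp only [if_neg e]
    rcases g1 i with h | h
    · obtain ⟨y, hy⟩ := split (Nat.one_le_iff_ne_zero.mpr u0)
      exact ⟨y, r _ _ (Or.inl ⟨q.trans h, hy.symm⟩)⟩
    · obtain ⟨y, hy⟩ := split (Nat.one_le_iff_ne_zero.mpr v0)
      exact ⟨y, r _ _ (Or.inr ⟨q.trans h, hy.symm⟩)⟩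
  · rw [← mul_prod_erase _ _ (mem_univ k0), if_pos rfl, one_mul]
    refine Nat.eq_of_mul_eq_mul_right (prod_pos fun i (_ : i ∈ univ.erase k0) =>
      Nat.pos_of_ne_zero (h0 i)) ?_
    rw [mul_prod_erase _ _ (mem_univ k0), hp, ← g3, ← prod_mul_distrib]
    exact prod_congr rfl fun i hi => by
      rw [if_neg (ne_of_mem_erase hi), Nat.div_mul_cancel (g2 i)]
  · obtain ⟨⟨x, y⟩, h1, h2⟩ := exists_of_ssubset hσ
    have h3 := (m x y).mp h1
    refine h3.1 (isolated (n := n) x ?_ _ (fun p q h => ?_) y ((hs x y).mpr (m2 x y h1)))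
    · rcases h3.2 with h | h <;> rwa [h.1]
    · have h4 := (m p q).mp (hσ.1 h)
      refine ⟨m2 p q (hσ.1 h), h4.1, ?_, ?_⟩
      · rintro rfl
        refine h2 ?_
        rcases h3.2 with ⟨a1, rfl⟩ | ⟨a1, rfl⟩ <;> rcases h4.2 with ⟨a2, rfl⟩ | ⟨a2, rfl⟩ <;>
          first | exact h | omega
      · rintro rfl
        refine h3.1 ?_
        rcases h3.2 with ⟨a1, rfl⟩ | ⟨a1, rfl⟩ <;> rcases h4.2 with ⟨a2, a3⟩ | ⟨a2, a3⟩ <;>
          first | exact a3 | (rw [a3] at a1; omega)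
  · rw [card_union_of_disjoint, card_image_of_injective _ fun _ _ h => (Prod.mk.inj h).1,
      card_image_of_injective _ fun _ _ h => (Prod.mk.inj h).1,
      card_erase_of_mem ((hY u).mpr hu), card_erase_of_mem ((hZ v).mpr hv)]
    · omega
    · refine disjoint_left.mpr fun p h1 h2 => ?_
      obtain ⟨_, -, rfl⟩ := mem_image.mp h1
      obtain ⟨_, -, h⟩ := mem_image.mp h2
      rw [(Prod.mk.inj h).2] at hv
      omega

theorem result (k : ℕ) (n : Fin k → ℕ) (hmin : ∀ i w, ph n w = n i → w i ≠ 0)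
    (hfin : {s | s ∉ Set.range (ph n)}.Finite) (e : ℕ → ℤ) (he : IsExp (Set.range (ph n)) e)
    (a b : ℕ) (hab : a ≠ b) (hE : {d | 2 ≤ d ∧ e d ≠ 0 ∧ d ∉ Set.range n} = {a, b})
    (h1 : ¬ ∃ s ∈ Set.range (ph n), b = a + s) (h2 : ¬ ∃ s ∈ Set.range (ph n), a = b + s) :
    ∃ ρ, Pres n ρ ∧ (∀ σ ⊂ ρ, ¬ Pres n σ) ∧ ρ.card + 1 = k := by
  have h0 : ∀ i, n i ≠ 0 := fun i h => hmin i 0 (ph_zero.trans h.symm) rfl
  have hi : Function.Injective n := fun i j h => by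
    by_contra hij
    exact hmin i (Pi.single j 1) (by rw [ph_single, h, one_mul]) (Pi.single_eq_of_ne hij 1)
  have t0 : ¬ TT n 0 := fun ⟨x, y, p, q, r⟩ => p ((ph_eq_zero h0 q).trans (ph_eq_zero h0 r).symm)
  have tn : ∀ i, ¬ TT n (n i) := by
    have : ∀ i w, ph n w = n i → w = Pi.single i 1 := fun i w h => by
      obtain ⟨y, rfl⟩ := split (Nat.one_le_iff_ne_zero.mpr (hmin i w h))
      rw [ph_add, ph_single] at h
      rw [ph_eq_zero h0 (show ph n y = 0 by omega), zero_add]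
    exact fun i ⟨x, y, p, q, r⟩ => p ((this i x q).trans (this i y r).symm)
  have t1 : ¬ TT n 1 := fun h => by
    obtain ⟨x, -, -, q, -⟩ := id h
    obtain ⟨i, hx⟩ : ∃ i, x i ≠ 0 := by
      by_contra hh
      push Not at hh
      rw [show x = 0 from funext hh, ph_zero] at q
      omega
    obtain ⟨y, rfl⟩ := split (Nat.one_le_iff_ne_zero.mpr hx)
    rw [ph_add, ph_single] at q
    exact tn i (by rwa [show n i = 1 by have := h0 i; omega])
  have hE' : ∀ d, (2 ≤ d ∧ e d ≠ 0 ∧ d ∉ Set.range n) ↔ (d = a ∨ d = b) := Set.ext_iff.mp hE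
  have hn : ∀ i, n i ≤ ∑ i, n i := fun i => single_le_sum (fun _ _ => Nat.zero_le _) (mem_univ i)
  have id1 := ident h0 hi e he (a + b + ∑ i, n i + 1) (fun j hj => by
    by_contra h
    have := (hE' (j + 1)).mp ⟨by omega, h, fun ⟨i, h⟩ => by have := hn i; omega⟩
    omega) (by omega) fun i => by have := hn i; omega
  obtain ⟨f1, f2⟩ := facts h0 _ id1
  generalize hf : (fun j => e (j + 1) - (if j = 0 then 1 else 0) +
    if j + 1 ∈ Set.range n then 1 else 0) = f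
  have hf' := congrFun hf
  simp only [hf'] at id1 f1 f2
  let U : AddSubmonoid ℕ := ⟨⟨{s | s = 0 ∨ TT n s}, by
    rintro x y (rfl | hx) hy
    · rwa [zero_add]
    · rcases hy with rfl | ⟨w, -, -, rfl, -⟩
      exacts [Or.inr hx, Or.inr (hx.add w)]⟩, Or.inl rfl⟩
  have s1 := exp_supp (U := U) _ f f1
  have s2 : ∀ j, j ≠ 0 → j + 1 ∉ Set.range n → f j = e (j + 1) := fun j p q => by
    rw [← hf', if_neg p, if_neg q]; simp
  have s3 : ∀ j, TT n (j + 1) → f j ≠ 0 → j + 1 = a ∨ j + 1 = b := fun j p q => by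
    have c1 : j ≠ 0 := by rintro rfl; exact t1 p
    have c2 : j + 1 ∉ Set.range n := fun ⟨i, h⟩ => tn i (h ▸ p)
    exact (hE' _).mp ⟨by omega, s2 j c1 c2 ▸ q, c2⟩
  have s4 : ∀ j, MinT n (j + 1) → ∃ (Z : Finset (Fin k → ℕ)) (c : ℕ),
      (∀ w, w ∈ Z ↔ ph n w = j + 1) ∧ Z.card = c + 1 ∧ f j = c ∧ c ≠ 0 := by
    intro j mj
    obtain ⟨Z, z1, z2⟩ := f2 _ (by omega) mj
    obtain ⟨x, y, p, q, r⟩ := mj.1
    have c2 : 1 < Z.card := one_lt_card.mpr ⟨x, (z1 x).mpr q, y, (z1 y).mpr r, p⟩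
    rw [coeff_prod_un (U := U) ⟨by omega, ?_⟩ _ f s1] at z2
    · refine ⟨Z, Z.card - 1, z1, by omega, ?_, by omega⟩
      split_ifs at z2 <;> omega
    · rintro x (hx | hx) y (hy | ⟨w, -, -, rfl, -⟩) h
      exacts [Or.inl hx, Or.inl hx, Or.inr hy, Or.inr (by rw [mj.2 x hx w h, ph_zero])]
  have s5 : ∀ t, MinT n t → t = a ∨ t = b := fun t mt => by
    obtain ⟨j, rfl⟩ := Nat.exists_eq_succ_of_ne_zero (show t ≠ 0 from fun h => t0 (h ▸ mt.1))
    obtain ⟨_, c, -, -, p, q⟩ := s4 j mt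
    exact s3 j mt.1 (by omega)
  have s6 : ∀ d, d = a ∨ d = b → ∃ t w, MinT n t ∧ t + ph n w = d := fun d hd => by
    obtain ⟨p, q, r⟩ := (hE' d).mpr hd
    obtain ⟨j, rfl⟩ := Nat.exists_eq_succ_of_ne_zero (show d ≠ 0 by omega)
    exact exists_min h0 _ ((s1 j (by simp; omega) (by rwa [s2 j (by omega) r])).resolve_left
      (by omega))
  have ma : MinT n a := by
    obtain ⟨t, w, p, q⟩ := s6 a (Or.inl rfl)
    rcases s5 t p with rfl | rfl
    exacts [p, absurd ⟨_, ⟨w, rfl⟩, q.symm⟩ h2]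
  have mb : MinT n b := by
    obtain ⟨t, w, p, q⟩ := s6 b (Or.inr rfl)
    rcases s5 t p with rfl | rfl
    exacts [absurd ⟨_, ⟨w, rfl⟩, q.symm⟩ h1, p]
  obtain ⟨a, rfl⟩ := Nat.exists_eq_add_one_of_ne_zero (show a ≠ 0 from fun h => t0 (h ▸ ma.1))
  obtain ⟨b, rfl⟩ := Nat.exists_eq_add_one_of_ne_zero (show b ≠ 0 from fun h => t0 (h ▸ mb.1))
  obtain ⟨Y, α, hY, cY, fa, -⟩ := s4 a ma
  obtain ⟨Z, β, hZ, cZ, fb, -⟩ := s4 b mb
  rw [prod_eq_mul_of_mem a b (by simp; omega) (by simp; omega) (by omega) fun j hj hne => by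
    rw [show f j = 0 from by_contra fun h => by
      have := s3 j ((s1 j hj h).resolve_left (by omega)) h
      omega, zpow_zero], fa, fb, zpow_natCast, zpow_natCast, Units.val_mul, Units.val_pow_eq_pow_val,
    Units.val_pow_eq_pow_val] at id1
  obtain ⟨hk, hp, hd⟩ := analytic h0 hfin (by omega) (by omega) id1.symm
  have cA := card_le_card (pure_sub hY)
  have cB := card_le_card (pure_sub hZ)
  rw [pure_card (by omega)] at cA cB
  by_cases hA : (univ.filter fun i => n i ∣ a + 1).card = α + 1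
  · obtain ⟨k0, g, g1, g2, g3, ⟨u, hu, u0⟩, v, hv, v0⟩ :=
      select (by omega) (by omega) mb hZ cZ hk hA hd
    exact finish h0 hfin hab ma mb hY cY hZ cZ hk hp k0 g g1 g2 g3 u v hu u0 hv v0
  · have h3 := card_union_le (univ.filter fun i => n i ∣ a + 1) (univ.filter fun i => n i ∣ b + 1)
    rw [← filter_or, filter_true_of_mem fun i _ => hd i, card_univ, Fintype.card_fin] at h3
    obtain ⟨k0, g, g1, g2, g3, ⟨v, hv, v0⟩, u, hu, u0⟩ :=
      select (α := β) (by omega) (by omega) ma hY cY (by omega) (by omega) fun i => (hd i).symm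
    exact finish h0 hfin hab ma mb hY cY hZ cZ hk hp k0 g (fun i => (g1 i).symm) g2
      (g3.trans (mul_comm _ _)) u v hu u0 hv v0

end Pool.Agent.Results.MP_a0aa5b_al.CI
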